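import Pool.Agent.W944.CircFinal

/-!
# Small circuits for the permanent have many products with two factors of large degree

A computation has free linear combinations; its cost is the number `n` of its products.  Let `r` be
the number of its products of which both factors have degree larger than `δ`.  If it computes the
`m × m` permanent, exactly or as a limit, then `r ≥ (m² / 1200) log₂ (m³ / (5 · 10⁷ δ n))`.

So there is a cubic lower bound for the number of products when every product has a factor of
bounded degree (`r = 0`), the bound `c m² log m` for all computations (`n = r`), and computations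
with at most `m^(3 - 2η)` products have at least `c η m² log m` products of which both
factors have degree larger than `m ^ η`.
-/

set_option autoImplicit false

open MvPolynomial

namespace Pool.Agent.Results.MP_8b1d3b_lc.BalancedProducts

/-- The linear combinations, over the field `K`, of `1`, the variables and the products
`a j * b j` with `j ∈ J`. -/
noncomputable def Available {K σ : Type*} [Field K] {n : ℕ} (a b : Fin n → MvPolynomial σ K) (J : Set (Fin n)) :
    Submodule K (MvPolynomial σ K) :=
  Submodule.span K ({1} ∪ Set.range X ∪ {x | ∃ j ∈ J, x = a j * b j})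

/-- `a 0 * b 0, …, a (n - 1) * b (n - 1)` are the products of a computation of `F`: both factors of
each product are linear combinations of `1`, the variables and the earlier products, and `F` is a
linear combination of `1`, the variables and the products. -/
def Computes {K σ : Type*} [Field K] {n : ℕ} (a b : Fin n → MvPolynomial σ K)
    (F : MvPolynomial σ K) : Prop :=
  (∀ t, a t ∈ Available a b (Set.Iio t) ∧ b t ∈ Available a b (Set.Iio t)) ∧
    F ∈ Available a b Set.univ

/-- The number of the products of which both factors have total degree larger than `δ`. -/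
noncomputable def balanced {K σ : Type*} [Field K] {n : ℕ} (δ : ℕ)
    (a b : Fin n → MvPolynomial σ K) : ℕ :=
  (Finset.univ.filter fun t => δ < (a t).totalDegree ∧ δ < (b t).totalDegree).card

/-- All coefficients of `F` are defined at `ε = 0` and `F_{ε=0} = f`. -/
def SpecializesTo {K σ : Type*} [Field K] (F : MvPolynomial σ (RatFunc K))
    (f : MvPolynomial σ K) : Prop :=
  ∀ d, (coeff d F).denom.eval 0 ≠ 0 ∧ (coeff d F).eval (RingHom.id K) 0 = coeff d f

/-- The permanent of the `m × m` matrix of variables. -/
noncomputable def per (K : Type*) [Field K] (m : ℕ) : MvPolynomial (Fin m × Fin m) K :=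
  (Matrix.of fun i j : Fin m => (X (i, j) : MvPolynomial (Fin m × Fin m) K)).permanent

theorem available_swap {K σ : Type*} [Field K] {n : ℕ} (a b a' b' : Fin n → MvPolynomial σ K)
    (h : ∀ t, a' t * b' t = a t * b t) (J : Finset (Fin n)) (J' : Set (Fin n))
    (hJ : ∀ j, j ∈ J ↔ j ∈ J') (x : MvPolynomial σ K) (hx : x ∈ Available a b J') :
    x ∈ Submodule.span K ({1} ∪ Set.range X ∪ {x | ∃ j ∈ J, x = a' j * b' j}) := by
  have h1 : {x | ∃ j ∈ J, x = a' j * b' j} = {x | ∃ j ∈ J', x = a j * b j} := by
    ext y
    simp only [Set.mem_ofPred_eq, h, hJ]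
  rw [h1]
  exact hx

/-- The bound for limits. -/
theorem limit_bound {K : Type*} [Field K] [CharZero K] (m n δ : ℕ) (hm : 2 ^ 21 ≤ m)
    (hδ : 1 ≤ δ) (a b : Fin n → MvPolynomial (Fin m × Fin m) (RatFunc K))
    (F : MvPolynomial (Fin m × Fin m) (RatFunc K)) (hF : SpecializesTo F (per K m))
    (h : Computes a b F) :
    (m : ℝ) ^ 2 * Real.logb 2 ((m : ℝ) ^ 3 / (5 * 10 ^ 7 * δ * n)) ≤
      1200 * (balanced δ a b : ℝ) := by
  classical
  set a' : Fin n → MvPolynomial (Fin m × Fin m) (RatFunc K) := fun t =>
    if (a t).totalDegree ≤ δ then a t else b t with ha'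
  set b' : Fin n → MvPolynomial (Fin m × Fin m) (RatFunc K) := fun t =>
    if (a t).totalDegree ≤ δ then b t else a t with hb'
  have hab : ∀ t, a' t * b' t = a t * b t := by
    intro t
    rw [ha', hb']
    simp only
    split_ifs
    · rfl
    · exact mul_comm _ _
  have hav : ∀ t, ∀ x ∈ Available a b (Set.Iio t), x ∈ Submodule.span (RatFunc K)
      ({1} ∪ Set.range X ∪ {x | ∃ j ∈ Finset.Iio t, x = a' j * b' j}) := fun t x hx =>
    available_swap a b a' b' hab (Finset.Iio t) (Set.Iio t) (by simp) x hx
  have hbal : balanced δ a b = (Finset.univ.filter fun t =>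
      δ < (a t).totalDegree ∧ δ < (b t).totalDegree).card := by
    unfold balanced
    congr
  rw [hbal]
  apply Pool.Agent.W944.Cx.circ_final K m hm δ hδ a' b'
    (Finset.univ.filter fun t => δ < (a t).totalDegree ∧ δ < (b t).totalDegree)
    (fun t => by
      apply hav
      rw [ha']
      simp only
      split_ifs
      · exact (h.1 t).1
      · exact (h.1 t).2)
    (fun t => by
      apply hav
      rw [hb']
      simp only
      split_ifs
      · exact (h.1 t).2
      · exact (h.1 t).1)
    (fun t ht => by
      rw [Finset.mem_filter, not_and, not_and, not_lt] at ht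
      rw [ha']
      simp only
      split_ifs with hc
      · exact hc
      · exact ht (Finset.mem_univ t) (not_le.mp hc)) F
    (available_swap a b a' b' hab Finset.univ Set.univ (by simp) F h.2)
  exact hF

/-- **Small circuits for the permanent have many products with two factors of large degree.**
`K` is a field of characteristic zero, `m ≥ 2 ^ 21`, `δ ≥ 1`.  If a computation with `n` products
over `K` computes the `m × m` permanent, or a computation with `n` products over `K(ε)` computes a
polynomial that is defined at `ε = 0` and specializes to the permanent, then at least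
`(m² / 1200) log₂ (m³ / (5 · 10⁷ δ n))` of its products have two factors of degree larger than
`δ`. -/
theorem result {K : Type*} [Field K] [CharZero K] (m n δ : ℕ) (hm : 2 ^ 21 ≤ m) (hδ : 1 ≤ δ) :
    (∀ a b : Fin n → MvPolynomial (Fin m × Fin m) K, Computes a b (per K m) →
      (m : ℝ) ^ 2 * Real.logb 2 ((m : ℝ) ^ 3 / (5 * 10 ^ 7 * δ * n)) ≤
        1200 * (balanced δ a b : ℝ)) ∧
    (∀ (a b : Fin n → MvPolynomial (Fin m × Fin m) (RatFunc K))
      (F : MvPolynomial (Fin m × Fin m) (RatFunc K)), SpecializesTo F (per K m) →
      Computes a b F →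
      (m : ℝ) ^ 2 * Real.logb 2 ((m : ℝ) ^ 3 / (5 * 10 ^ 7 * δ * n)) ≤
        1200 * (balanced δ a b : ℝ)) := by
  refine ⟨?_, fun a b F hF h => limit_bound m n δ hm hδ a b F hF h⟩
  intro a b h
  classical
  set ρ : K →+* RatFunc K := RatFunc.C with hρ
  have hmap : ∀ (J : Set (Fin n)) (x : MvPolynomial (Fin m × Fin m) K), x ∈ Available a b J →
      map ρ x ∈ Available (fun t => map ρ (a t)) (fun t => map ρ (b t)) J := by
    intro J x hx
    unfold Available at hx ⊢
    induction hx using Submodule.span_induction with
    | mem y hy =>
      apply Submodule.subset_span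
      rcases hy with (hy | ⟨v, rfl⟩) | ⟨j, hj, rfl⟩
      · left; left
        rw [Set.mem_singleton_iff] at hy
        rw [hy, map_one]
        rfl
      · left; right
        exact ⟨v, by rw [map_X]⟩
      · right
        exact ⟨j, hj, by rw [map_mul]⟩
    | zero => rw [map_zero]; exact Submodule.zero_mem _
    | add y z _ _ hy hz => rw [map_add]; exact Submodule.add_mem _ hy hz
    | smul c y _ hy =>
      rw [smul_eq_C_mul, map_mul, map_C, ← smul_eq_C_mul]
      exact Submodule.smul_mem _ _ hy
  have h1 := limit_bound m n δ hm hδ (fun t => map ρ (a t)) (fun t => map ρ (b t))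
    (map ρ (per K m)) (by
      intro d
      rw [coeff_map]
      constructor
      · rw [hρ, RatFunc.denom_C]; simp
      · rw [hρ, RatFunc.eval_C]; rfl)
    ⟨fun t => ⟨hmap _ _ (h.1 t).1, hmap _ _ (h.1 t).2⟩, hmap _ _ h.2⟩
  refine h1.trans ?_
  have h2 : balanced δ (fun t => map ρ (a t)) (fun t => map ρ (b t)) ≤ balanced δ a b := by
    unfold balanced
    apply Finset.card_le_card
    intro t ht
    rw [Finset.mem_filter] at ht ⊢
    exact ⟨ht.1, lt_of_lt_of_le ht.2.1 (Pool.Agent.H632R2.Border.totalDegree_map_le _ _),
      lt_of_lt_of_le ht.2.2 (Pool.Agent.H632R2.Border.totalDegree_map_le _ _)⟩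
  have h3 : (balanced δ (fun t => map ρ (a t)) (fun t => map ρ (b t)) : ℝ) ≤ balanced δ a b := by
    exact_mod_cast h2
  linarith

end Pool.Agent.Results.MP_8b1d3b_lc.BalancedProducts
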