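import Pool.Agent.W942.FinalA

/-!
# Formulas with determinant gates for the permanent

`Formula K n` (file `Pool/Agent/W942/Form.lean`) is the type of formulas over the entries of an
`n × n` matrix `X` of variables: constants, leaves (an arbitrary polynomial), binary sums and
products, and determinants of square matrices, of any order, of formulas. `Formula.size` counts
the leaves and the gates, constants are free. `Formula.RowDisjoint t` says that each leaf is a
polynomial in the variables of at most `t` rows of `X`, that the two factors of a product involve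
disjoint sets of rows of `X`, and that entries of a determinant gate in different rows of its matrix
involve disjoint sets of rows of `X`. These are the set-multilinear formulas (with respect to the
rows of `X`) when there are no determinant gates.

`RepPer ι res p` (file `Pool/Agent/W942/PerC.lean`) says that for every `n × n` matrix `A` with
entries `0, 1, -1` the value `p(A)` is `ι g` for some `g` with `res g = per A`. For `O = K = F` and
identity maps it says that `p(A) = per A` for these matrices; for `O = F[ε]`, `K = F(ε)` and
`res = (ε ↦ 0)` it contains the approximate (border) version.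

The determinant is one gate, but the permanent needs size `n ^ (c log n)`.
-/

set_option autoImplicit false

namespace Pool.Agent.Results.MP_8b1d3b_lc.DeterminantGates

open MvPolynomial Pool.Agent.W942

universe u v w x

theorem det_upper (K : Type x) [CommRing K] (n : ℕ) : ∃ Φ : Formula K n, Φ.RowDisjoint 1 ∧
    Φ.poly = (Matrix.of fun i j => X (i, j) : Matrix (Fin n) (Fin n)
      (MvPolynomial (Fin n × Fin n) K)).det ∧ Φ.size = n ^ 2 + 1 := by
  classical
  refine ⟨Formula.det n fun i j => Formula.leaf (X (i, j)), ⟨fun a b => ?_, fun a a' b b' h => ?_⟩,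
    rfl, ?_⟩
  · show ((X (a, b) : MvPolynomial (Fin n × Fin n) K).vars.image Prod.fst).card ≤ 1
    rcases subsingleton_or_nontrivial K with hK | hK
    · have : (X (a, b) : MvPolynomial (Fin n × Fin n) K) = 0 := Subsingleton.elim _ _
      rw [this]; simp
    · rw [vars_X]; simp
  · show Disjoint ((X (a, b) : MvPolynomial (Fin n × Fin n) K).vars.image Prod.fst)
      ((X (a', b') : MvPolynomial (Fin n × Fin n) K).vars.image Prod.fst)
    rcases subsingleton_or_nontrivial K with hK | hK
    · have : (X (a, b) : MvPolynomial (Fin n × Fin n) K) = 0 := Subsingleton.elim _ _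
      rw [this]; simp
    · rw [vars_X, vars_X]; simpa using h
  · simp [Formula.size, sq]

/-- Over every field of characteristic different from two, row-disjoint formulas with determinant
gates for the permanent have size at least `n ^ (δ / 10000 * log n)` as soon as their leaves are
polynomials in at most `n ^ (1 - δ)` rows and `n` is large, whereas the determinant is a single
gate. -/
theorem result (δ : ℝ) (hδ : 0 < δ) (hδ1 : δ ≤ 1) :
    (∃ n₀ : ℕ, ∀ n : ℕ, n₀ ≤ n → ∀ (O : Type u) (K : Type v) (F : Type w) [CommRing O] [Field K]
      [Field F] (ι : O →+* K) (res : O →+* F), Function.Injective ι → (2 : F) ≠ 0 →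
      ∀ (t : ℕ) (Φ : Formula K n), (t : ℝ) ≤ (n : ℝ) ^ (1 - δ) → Φ.RowDisjoint t →
        RepPer ι res Φ.poly → (n : ℝ) ^ (δ / 10000 * Real.log n) ≤ Φ.size) ∧
    ∀ (n : ℕ) (K : Type x) [CommRing K], ∃ Φ : Formula K n, Φ.RowDisjoint 1 ∧
      Φ.poly = (Matrix.of fun i j => X (i, j) : Matrix (Fin n) (Fin n)
        (MvPolynomial (Fin n × Fin n) K)).det ∧ Φ.size = n ^ 2 + 1 := by
  refine ⟨⟨⌈Real.exp (100000 / δ)⌉₊, fun n hn O K F _ _ _ ι res hι hF t Φ ht hΦ hrep => ?_⟩,
    fun n K _ => det_upper K n⟩
  have hn' : Real.exp (100000 / δ) ≤ n := Nat.ceil_le.1 hn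
  have hn1 : (1 : ℝ) ≤ n := by
    have h1 : (1 : ℝ) ≤ Real.exp (100000 / δ) := by
      rw [← Real.exp_zero, Real.exp_le_exp]; positivity
    linarith
  have h1 : (1 : ℝ) ≤ (n : ℝ) ^ (1 - δ) := Real.one_le_rpow hn1 (by linarith)
  refine asymptotic δ hδ hδ1 n hn' (max t 1) (le_max_right _ _) ?_ Φ.size ?_
  · rw [Nat.cast_max]
    exact max_le ht (by simpa using h1)
  · have h2 := formula_lower (k := n / 36) ι hι res hF (Nat.mul_div_le n 36) (max t 1)
      (le_max_right _ _) Φ (hΦ.mono (le_max_left _ _)) hrep
    exact_mod_cast h2

end Pool.Agent.Results.MP_8b1d3b_lc.DeterminantGates
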