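import Pool.Agent.W942.FinalB

/-!
# Circuits of determinants of bounded depth for the permanent

`DetCircuit K n s` (file `Pool/Agent/W942/Circ.lean`) is the type of circuits with `s` nodes over the
entries of an `n × n` matrix `X` of variables. A leaf is an arbitrary polynomial in the variables of
one row of `X`. Every other node is a determinant gate: it computes the determinant of a square
matrix, of any order, the entries of which are linear combinations of `1` and of nodes of smaller
depth; the nodes used in different rows of the matrix involve disjoint sets of rows of `X`. Products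
of any number of factors are determinants of diagonal matrices. Linear combinations are free.

`RepPer ι res p` (file `Pool/Agent/W942/PerC.lean`): for every `n × n` matrix `B` with entries
`0, 1, -1` there is `g` with `ι g = p(B)` and `res g = per B`. For `O = K = F` and identity maps this
says `p(B) = per B` for these matrices, for `O = F[ε]`, `K = F(ε)`, `res = (ε ↦ 0)` it contains the
approximate (border) version.
-/

set_option autoImplicit false

namespace Pool.Agent.Results.MP_8b1d3b_lc.NestedDeterminants

open MvPolynomial Pool.Agent.W942

universe u v w x

/-- If a linear combination of `1` and of the nodes of depth at most `d ≥ 1` of a circuit of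
determinants with `s` nodes represents the `n × n` permanent over a field of characteristic
different from two, then `exp (n ^ (1 / d) / 200) ≤ (n + 1) ^ 2 * (s + 2) ^ d`, whereas the
determinant is computed by a circuit with `n ^ 2 + 1` nodes and depth `1`. -/
theorem result :
    (∀ (n s d : ℕ), 1 ≤ d → ∀ (O : Type u) (K : Type v) (F : Type w) [CommRing O] [Field K]
      [Field F] (ι : O →+* K) (res : O →+* F), Function.Injective ι → (2 : F) ≠ 0 →
      ∀ (D : DetCircuit K n s) (c : K) (b : Fin s → K), (∀ j, b j ≠ 0 → D.depth j ≤ d) →
        RepPer ι res (C c + ∑ j, C (b j) * D.poly j) →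
          Real.exp ((n : ℝ) ^ (1 / (d : ℝ)) / 200) ≤ ((n : ℝ) + 1) ^ 2 * ((s : ℝ) + 2) ^ d) ∧
    ∀ (n : ℕ) (K : Type x) [CommRing K] [Nontrivial K],
      ∃ (D : DetCircuit K n (n * n + 1)) (i : Fin (n * n + 1)), D.depth i = 1 ∧
        D.poly i = (Matrix.of fun a b => X (a, b) : Matrix (Fin n) (Fin n)
          (MvPolynomial (Fin n × Fin n) K)).det := by
  refine ⟨fun n s d hd O K F _ _ _ ι res hι hF D c b hb hrep => ?_,
    fun n K _ _ => det_circuit K n⟩
  obtain ⟨k, rfl⟩ : ∃ k, d = k + 1 := ⟨d - 1, by omega⟩
  have h := circuit_lower ι hι res hF k D c b hb hrep
  push_cast at h ⊢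
  exact h

end Pool.Agent.Results.MP_8b1d3b_lc.NestedDeterminants
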