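import Pool.Agent.W942.NetMul

/-!
# Sums of tree-structured networks for the permanent

`Net K n m` (file `Pool/Agent/W942/Net.lean`) is the type of networks with `m` outputs over the
entries of an `n × n` matrix `X` of variables. A network is a tree. A leaf carries `m` arbitrary
polynomials. A node has `M` subnetworks, `M` arbitrary, with vectors `g_1, ..., g_M` of outputs, and
each of the outputs of the node is the sum of `c` determinants of `M × M` matrices whose `a`-th row
consists of linear combinations of the entries of the vector `g_a`.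

`Φ.Valid w z`: every leaf has variables from fewer than `z` rows of `X`, every node has at most `w`
outputs and `c ≤ w`, and different subnetworks of a node have disjoint sets of rows of `X`.

So `w` is a width: a product of `w × w` matrices, each of which depends on its own fewer than `z`
rows of `X`, is such a network, for instance a set-multilinear branching program of width `w`
which reads the rows of `X` in any order. The determinant of `X` is a network with `w = 1`.

`RepPer ι res p` (file `Pool/Agent/W942/PerC.lean`): for every `n × n` matrix `B` with entries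
`0, 1, -1` there is `g` with `ι g = p(B)` and `res g = per B`. For `O = K = F` and identity maps this
says `p(B) = per B` for these matrices, for `O = F[ε]`, `K = F(ε)`, `res = (ε ↦ 0)` it contains the
approximate (border) version.
-/

set_option autoImplicit false

namespace Pool.Agent.Results.MP_8b1d3b_lc.StructuredSums

open MvPolynomial Pool.Agent.W942

universe u v w x

/-- If a sum of `s` networks represents the `n × n` permanent over a field of characteristic
different from two, then (1) `exp (n / (8 z)) ≤ 2 (n + 1) ^ 2 * s` if their width is at most `2 ^ q`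
and their leaves have fewer than `z` rows, where `z ≥ 10 ^ 6 * q ^ 2`, and (2)
`exp (n ^ (1 / 3) / 300) ≤ 2 (n + 1) ^ 2 * (s * w)` if their width is at most `w` and their leaves
have fewer than `10 ^ 6` rows. The trees of the networks and their sets of rows are arbitrary. (3)
The determinant is one network of width one, whose leaves have one row each. (4) The entries of
products of `w × w` matrices which depend on disjoint sets of fewer than `z` rows are networks of
width `w`. -/
theorem result :
    (∀ (n s w z q : ℕ), 1 ≤ q → w ≤ 2 ^ q → 10 ^ 6 * q ^ 2 ≤ z →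
      ∀ (O : Type u) (K : Type v) (F : Type w) [CommRing O] [Field K] [Field F]
      (ι : O →+* K) (res : O →+* F), Function.Injective ι → (2 : F) ≠ 0 →
      ∀ Φ : Fin s → Net K n 1, (∀ i, (Φ i).Valid w z) → RepPer ι res (∑ i, (Φ i).poly 0) →
        Real.exp ((n : ℝ) / (8 * z)) ≤ 2 * ((n : ℝ) + 1) ^ 2 * s) ∧
    (∀ (n s w : ℕ), 1 ≤ w →
      ∀ (O : Type u) (K : Type v) (F : Type w) [CommRing O] [Field K] [Field F]
      (ι : O →+* K) (res : O →+* F), Function.Injective ι → (2 : F) ≠ 0 →
      ∀ Φ : Fin s → Net K n 1, (∀ i, (Φ i).Valid w (10 ^ 6)) →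
        RepPer ι res (∑ i, (Φ i).poly 0) →
        Real.exp ((n : ℝ) ^ (1 / 3 : ℝ) / 300) ≤ 2 * ((n : ℝ) + 1) ^ 2 * (s * w)) ∧
    (∀ (n : ℕ) (K : Type x) [CommRing K], ∃ Φ : Net K n 1, Φ.Valid 1 2 ∧
      Φ.poly 0 = (Matrix.of fun a b => X (a, b) : Matrix (Fin n) (Fin n)
        (MvPolynomial (Fin n × Fin n) K)).det) ∧
    (∀ (n w z r : ℕ), 1 ≤ w → 1 ≤ z → ∀ (K : Type x) [CommRing K] (B : Fin r → Finset (Fin n))
      (A : Fin r → Matrix (Fin w) (Fin w) (MvPolynomial (Fin n × Fin n) K)),
      (∀ t t', t ≠ t' → Disjoint (B t) (B t')) → (∀ t, (B t).card < z) →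
      (∀ t i j, ∀ v ∈ (A t i j).vars, v.1 ∈ B t) →
      ∀ i j, ∃ Φ : Net K n 1, Φ.Valid w z ∧ Φ.poly 0 = (List.ofFn A).prod i j) :=
  ⟨fun _ _ _ _ _ hq hw hz _ _ _ _ _ _ ι res hι hF Φ hΦ h =>
      net_lower ι hι res hF hq hw hz Φ hΦ h,
    fun _ _ _ hw _ _ _ _ _ _ ι res hι hF Φ hΦ h => net_lower_cube ι hι res hF hw Φ hΦ h,
    fun n K _ => det_net n K,
    fun _ _ _ _ hw hz _ _ B A hB hBz hA i j => Net.ofProd_entry hw hz B A hB hBz hA i j⟩

end Pool.Agent.Results.MP_8b1d3b_lc.StructuredSums
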